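import Pool.Agent.H37.CND.Stmts

set_option autoImplicit false

namespace Pool.CND

theorem cond_mono (k G G' : Type) [Field k] [Group G] [Group G'] (e : G ≃* G') :
    Cond k G ⊆ Cond k G' := by
  rintro c ⟨L, fL, aL, ρ, t, hc, P, hP, l, h1, h2, h3⟩
  set f : G' →* G := e.symm.toMonoidHom with hf
  have hram : ∀ i : ℕ, ram P (ρ.comp f) i = e '' ram P ρ i := by
    intro i
    ext g
    constructor
    · intro hg
      exact ⟨e.symm g, hg, by simp⟩
    · rintro ⟨g0, hg, rfl⟩
      have : (ρ.comp f) (e g0) = ρ g0 := by simp [hf]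
      show Fixes P ((ρ.comp f) (e g0)) ∧ ∀ u : L, u ≠ 0 → P.ord u = 1 →
        (ρ.comp f) (e g0) u = u ∨ (i : ℤ) + 1 ≤ P.ord ((ρ.comp f) (e g0) u - u)
      rw [this]
      exact hg
  have hone : e '' ({1} : Set G) = {1} := by simp
  have hcard : ∀ i : ℕ, (ram P (ρ.comp f) i).ncard = (ram P ρ i).ncard := by
    intro i
    rw [hram i]
    exact Set.ncard_image_of_injective _ e.injective
  refine ⟨L, fL, aL, ρ.comp f, t, ⟨?_, hc.trans, ?_, ?_⟩, P, hP, l, ?_, ?_, ?_⟩
  · exact hc.inj.comp e.symm.injective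
  · intro x
    rw [← hc.fixed x]
    constructor
    · intro h g
      have := h (e g)
      simpa [hf] using this
    · intro h g
      exact h (e.symm g)
  · intro Q hQ g hg
    have := hc.unram Q hQ (e.symm g) hg
    simpa using this
  · rw [hram, ← hone]
    intro h
    exact h1 (e.injective.image_injective h)
  · rw [hram, h2, hone]
  · rw [h3, hcard 0]
    congr 1
    refine Finset.sum_congr rfl (fun i _ => ?_)
    rw [hcard i]

theorem cng_thm : S_CNG := by
  intro k G G' _ _ _ ⟨e⟩
  have h : Cond k G = Cond k G' :=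
    Set.Subset.antisymm (cond_mono k G G' e) (cond_mono k G' G e.symm)
  unfold NG
  rw [h]

end Pool.CND
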