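import Pool.Agent.H37.CND.Stmts

set_option autoImplicit false

namespace Pool.CND

theorem low_thm (hCVR : S_CVR) (hCVC : S_CVC) (hCVN : S_CVN) : S_LOW := by
  intro p k _ _ _ _ h m hh hm hpm
  obtain ⟨L, fL, aL, s, x, y, ρ, P, hC⟩ := hCVR p k h m hh hm hpm
  refine ⟨L, fL, aL, ρ, s, hCVC p k L h m s x y ρ P hh hm hpm hC, P, ?_,
    hCVN p k L h m s x y ρ P hh hm hpm hC⟩
  have hp := (Fact.out : p.Prime)
  have h1 : 0 < p * p ^ (2 * h) := Nat.mul_pos hp.pos (pow_pos hp.pos _)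
  rw [hC.ord_s]
  omega

end Pool.CND
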